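import Mathlib

set_option autoImplicit false

/-!
# The support bound `τ ≤ 1 + dim G + rk X(G)` for all diagonalizable groups

Let `L` be the lattice of all integral relations between finitely many elements `χ_i` of a finitely
generated abelian group `X` with `d` generators. Localizing at a prime `p` one finds at most `d` of
the `χ_i` which generate the others up to a factor prime to `p`; hence `L` is generated by relations
with support of size at most `1 + d`. If there is a strictly positive relation, then Carathéodory's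
theorem for cones turns a relation with support `J` into a difference of two nonnegative relations
whose support has at most `|J| + rank X` elements.
-/

namespace Pool.Agent.Results.MP_7bc96b_al.SupportBound

universe u

section Defs

variable {X : Type u} [AddCommGroup X] {n : ℕ}

/-- The monoid `B(χ)` of all `m ∈ ℕ^n` with `m₁ χ₁ + ⋯ + m_n χ_n = 0`. -/
def B (χ : Fin n → X) : Set (Fin n → ℕ) := {m | ∑ i, m i • χ i = 0}

/-- The set `B_I` of all elements of `B(χ)` with support contained in `I`. -/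
def BI (χ : Fin n → X) (I : Finset (Fin n)) : Set (Fin n → ℕ) :=
  {m | m ∈ B χ ∧ ∀ i, m i ≠ 0 → i ∈ I}

/-- The subgroup of `ℤ^n` generated by a set of vectors in `ℕ^n`. -/
def ZSpan (S : Set (Fin n → ℕ)) : AddSubgroup (Fin n → ℤ) :=
  AddSubgroup.closure ((fun (m : Fin n → ℕ) (i : Fin n) => (m i : ℤ)) '' S)

/-- `τ(B)`: the least `t` such that for every `I` the group `ℤ B_I` is generated by the union of the
sets `B_J`, `J ⊆ I`, `|J| ≤ t`. -/
noncomputable def tau (χ : Fin n → X) : ℕ :=
  sInf {t | ∀ I : Finset (Fin n),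
    ZSpan (BI χ I) = ZSpan {m | ∃ J : Finset (Fin n), J ⊆ I ∧ J.card ≤ t ∧ m ∈ BI χ J}}

/-- `rk(X)`: the minimal number of generators of `X`. -/
noncomputable def rk (X : Type u) [AddCommGroup X] : ℕ :=
  sInf {k | ∃ g : Fin k → X, AddSubgroup.closure (Set.range g) = ⊤}

end Defs

section Lattice

variable {X : Type u} [AddCommGroup X] {n : ℕ}

/-- At most `d` of the elements generate all the others up to a factor prime to `p`. -/
lemma exists_small_gen {d : ℕ} (g : Fin d → X) (hg : Submodule.span ℤ (Set.range g) = ⊤)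
    {p : ℕ} (hp : p.Prime) (χ : Fin n → X) (I : Finset (Fin n)) :
    ∃ S ⊆ I, S.card ≤ d ∧ ∃ c : ℤ, ¬ (p : ℤ) ∣ c ∧
      ∀ j ∈ I, c • χ j ∈ Submodule.span ℤ (χ '' (S : Set (Fin n))) := by
  classical
  let P : Finset (Fin n) → Prop := fun S => S ⊆ I ∧ ∃ c : ℤ, ¬ (p : ℤ) ∣ c ∧
      ∀ j ∈ I, c • χ j ∈ Submodule.span ℤ (χ '' (S : Set (Fin n)))
  have hpp : Prime (p : ℤ) := Nat.prime_iff_prime_int.mp hp
  have hP : ∃ k, ∃ S, P S ∧ S.card = k := by
    refine ⟨I.card, I, ⟨subset_rfl, 1, ?_, ?_⟩, rfl⟩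
    · intro h
      exact hpp.not_isUnit (isUnit_of_dvd_one h)
    · intro j hj
      rw [one_smul]
      exact Submodule.subset_span ⟨j, hj, rfl⟩
  obtain ⟨S, ⟨hSI, c, hc, hcS⟩, hcard⟩ := Nat.find_spec hP
  refine ⟨S, hSI, ?_, c, hc, hcS⟩
  by_contra hlt
  push Not at hlt
  -- lifts
  have hlift : ∀ x : X, ∃ y : Fin d → ℤ, ∑ k, y k • g k = x := by
    intro x
    have hx : x ∈ Submodule.span ℤ (Set.range g) := by rw [hg]; trivial
    exact (Submodule.mem_span_range_iff_exists_fun ℤ).1 hx
  choose y hy using hlift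
  have hdep : ¬ LinearIndependent ℤ (fun i : S => y (χ i)) := by
    intro hli
    have h1 := hli.fintype_card_le_finrank
    rw [Module.finrank_fin_fun, Fintype.card_coe] at h1
    omega
  rw [Fintype.not_linearIndependent_iff] at hdep
  obtain ⟨a, ha, i1, hi1⟩ := hdep
  obtain ⟨b, hb, hgcd⟩ := Finset.extract_gcd a (Finset.univ_nonempty_iff.mpr ⟨i1⟩)
  have hg0 : (Finset.univ.gcd a) ≠ 0 := by
    intro h
    rw [Finset.gcd_eq_zero_iff] at h
    exact hi1 (h i1 (Finset.mem_univ _))
  have hb0 : ∑ i, b i • y (χ i) = 0 := by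
    have h1 : (Finset.univ.gcd a) • ∑ i, b i • y (χ i) = 0 := by
      rw [← ha, Finset.smul_sum]
      refine Finset.sum_congr rfl fun i _ => ?_
      rw [smul_smul, ← hb i (Finset.mem_univ _)]
    exact (smul_eq_zero.mp h1).resolve_left hg0
  obtain ⟨i0, hi0⟩ : ∃ i0, ¬ (p : ℤ) ∣ b i0 := by
    by_contra hcon
    push Not at hcon
    have h1 : (p : ℤ) ∣ Finset.univ.gcd b := Finset.dvd_gcd fun i _ => hcon i
    rw [hgcd] at h1
    exact hpp.not_isUnit (isUnit_of_dvd_one h1)
  -- the relation in `X`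
  have hrel : ∑ i : S, b i • χ i = 0 := by
    have h1 : ∀ i : S, χ i = ∑ k, y (χ i) k • g k := fun i => (hy _).symm
    calc ∑ i : S, b i • χ i = ∑ i : S, b i • ∑ k, y (χ i) k • g k :=
          Finset.sum_congr rfl fun i _ => by rw [← h1 i]
      _ = ∑ k, (∑ i : S, b i • y (χ i)) k • g k := by
          simp only [Finset.smul_sum, Finset.sum_apply, Pi.smul_apply, Finset.sum_smul, smul_smul,
            smul_eq_mul]
          exact Finset.sum_comm
      _ = 0 := by rw [hb0]; simp
  have hmem : b i0 • χ i0 ∈ Submodule.span ℤ (χ '' ((S.erase i0 : Finset (Fin n)) : Set (Fin n))) := by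
    have h1 : b i0 • χ i0 = - ∑ i ∈ Finset.univ.erase i0, b i • χ i := by
      rw [← Finset.add_sum_erase _ _ (Finset.mem_univ i0)] at hrel
      exact eq_neg_of_add_eq_zero_left hrel
    rw [h1]
    refine Submodule.neg_mem _ (Submodule.sum_mem _ fun i hi => Submodule.smul_mem _ _ ?_)
    refine Submodule.subset_span ⟨i, ?_, rfl⟩
    rw [Finset.mem_coe, Finset.mem_erase]
    refine ⟨?_, i.2⟩
    intro h
    exact (Finset.mem_erase.1 hi).1 (Subtype.ext h)
  have hspan : ∀ x ∈ Submodule.span ℤ (χ '' (S : Set (Fin n))),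
      b i0 • x ∈ Submodule.span ℤ (χ '' ((S.erase i0 : Finset (Fin n)) : Set (Fin n))) := by
    intro x hx
    induction hx using Submodule.span_induction with
    | mem x hx =>
      obtain ⟨j, hj, rfl⟩ := hx
      by_cases hji : j = i0
      · rw [hji]; exact hmem
      · exact Submodule.smul_mem _ _ (Submodule.subset_span
          ⟨j, Finset.mem_coe.2 (Finset.mem_erase.2 ⟨hji, hj⟩), rfl⟩)
    | zero => rw [smul_zero]; exact Submodule.zero_mem _
    | add x y _ _ hx hy => rw [smul_add]; exact Submodule.add_mem _ hx hy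
    | smul c x _ hx => rw [smul_comm]; exact Submodule.smul_mem _ _ hx
  refine Nat.find_min hP (m := (S.erase i0).card) ?_ ⟨S.erase i0,
    ⟨(Finset.erase_subset _ _).trans hSI, b i0 * c, ?_, ?_⟩, rfl⟩
  · rw [← hcard]
    exact Finset.card_erase_lt_of_mem i0.2
  · intro h
    rcases hpp.dvd_or_dvd h with h1 | h1
    · exact hi0 h1
    · exact hc h1
  · intro j hj
    rw [mul_smul]
    exact hspan _ (hcS j hj)

/-- The integral relations between the `χ i` with support in `I`. -/
def L (χ : Fin n → X) (I : Finset (Fin n)) : AddSubgroup (Fin n → ℤ) where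
  carrier := {v | (∀ i, v i ≠ 0 → i ∈ I) ∧ ∑ i, v i • χ i = 0}
  zero_mem' := by simp
  add_mem' := by
    rintro a b ⟨ha, ha'⟩ ⟨hb, hb'⟩
    refine ⟨fun i hi => ?_, ?_⟩
    · by_contra hcon
      have h1 : a i = 0 := by by_contra h; exact hcon (ha i h)
      have h2 : b i = 0 := by by_contra h; exact hcon (hb i h)
      exact hi (by rw [Pi.add_apply, h1, h2, add_zero])
    · simp only [Pi.add_apply, add_smul, Finset.sum_add_distrib, ha', hb', add_zero]
  neg_mem' := by
    rintro a ⟨ha, ha'⟩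
    refine ⟨fun i hi => ha i fun h => hi (by rw [Pi.neg_apply, h, neg_zero]), ?_⟩
    simp only [Pi.neg_apply, neg_smul, Finset.sum_neg_distrib, ha', neg_zero]

/-- The subgroup generated by the relations with small support. -/
def Ls (χ : Fin n → X) (I : Finset (Fin n)) (t : ℕ) : AddSubgroup (Fin n → ℤ) :=
  AddSubgroup.closure {v | v ∈ L χ I ∧ ∃ J : Finset (Fin n), J ⊆ I ∧ J.card ≤ t ∧
    ∀ i, v i ≠ 0 → i ∈ J}

lemma mul_mem_Ls {d : ℕ} (g : Fin d → X) (hg : Submodule.span ℤ (Set.range g) = ⊤)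
    {p : ℕ} (hp : p.Prime) (χ : Fin n → X) (I : Finset (Fin n)) :
    ∃ c : ℤ, ¬ (p : ℤ) ∣ c ∧ ∀ v ∈ L χ I, c • v ∈ Ls χ I (1 + d) := by
  classical
  obtain ⟨S, hSI, hcard, c, hc, hcS⟩ := exists_small_gen g hg hp χ I
  refine ⟨c, hc, ?_⟩
  -- coefficients
  have hcoef : ∀ j ∈ I, ∃ a : Fin n → ℤ, (∀ i, a i ≠ 0 → i ∈ S) ∧ ∑ i, a i • χ i = c • χ j := by
    intro j hj
    have h1 := hcS j hj
    rw [Submodule.mem_span_image_finset_iff_exists_fun] at h1
    obtain ⟨a, ha⟩ := h1
    refine ⟨fun i => if h : i ∈ S then a ⟨i, h⟩ else 0, fun i hi => ?_, ?_⟩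
    · by_contra h
      exact hi (by simp [h])
    · rw [← ha, ← Finset.sum_subset (Finset.subset_univ S) (fun i _ hi => by simp [hi]),
        ← Finset.sum_coe_sort]
      refine Finset.sum_congr rfl fun i _ => ?_
      simp
  choose! a haS ha using hcoef
  let w : Fin n → (Fin n → ℤ) := fun j => c • Pi.single j 1 - a j
  have hw : ∀ j ∈ I, w j ∈ Ls χ I (1 + d) := by
    intro j hj
    refine AddSubgroup.subset_closure ⟨⟨fun i hi => ?_, ?_⟩, insert j S, ?_, ?_, fun i hi => ?_⟩
    · by_contra hcon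
      have h1 : i ≠ j := fun h => hcon (h ▸ hj)
      have h2 : a j i = 0 := by by_contra h; exact hcon (hSI (haS j hj i h))
      exact hi (by simp [w, h1, h2])
    · simp only [w, Pi.sub_apply, Pi.smul_apply, sub_smul, Finset.sum_sub_distrib, ha j hj]
      rw [Finset.sum_eq_single j]
      · simp
      · intro i _ hij
        simp [hij]
      · intro h; exact absurd (Finset.mem_univ j) h
    · exact Finset.insert_subset hj hSI
    · have := Finset.card_insert_le j S
      omega
    · by_contra hcon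
      rw [Finset.mem_insert, not_or] at hcon
      have h2 : a j i = 0 := by by_contra h; exact hcon.2 (haS j hj i h)
      exact hi (by simp [w, hcon.1, h2])
  intro v hv
  -- `c v - ∑ v_j w_j` is supported on `S`
  have h1 : c • v - ∑ j ∈ I, v j • w j = ∑ j ∈ I, v j • a j := by
    have h2 : v = ∑ j ∈ I, v j • (Pi.single j 1 : Fin n → ℤ) := by
      funext i
      rw [Finset.sum_apply]
      simp only [Pi.smul_apply, Pi.single_apply, smul_eq_mul, mul_ite, mul_one, mul_zero]
      rw [Finset.sum_ite_eq]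
      split_ifs with h
      · rfl
      · by_contra h3
        exact h (hv.1 i h3)
    have h3 : c • v = ∑ j ∈ I, v j • (c • (Pi.single j 1 : Fin n → ℤ)) := by
      nth_rewrite 1 [h2]
      rw [Finset.smul_sum]
      exact Finset.sum_congr rfl fun j _ => smul_comm _ _ _
    rw [h3, ← Finset.sum_sub_distrib]
    refine Finset.sum_congr rfl fun j _ => ?_
    rw [← smul_sub]
    simp [w]
  have hsum : ∑ j ∈ I, v j • w j ∈ Ls χ I (1 + d) :=
    AddSubgroup.sum_mem _ fun j hj => AddSubgroup.zsmul_mem _ (hw j hj) _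
  have hrest : ∑ j ∈ I, v j • a j ∈ Ls χ I (1 + d) := by
    refine AddSubgroup.subset_closure ⟨?_, S, hSI, by omega, fun i hi => ?_⟩
    · rw [← h1]
      refine AddSubgroup.sub_mem _ (AddSubgroup.zsmul_mem _ hv _)
        (AddSubgroup.sum_mem _ fun j hj => AddSubgroup.zsmul_mem _ ?_ _)
      have h2 : Ls χ I (1 + d) ≤ L χ I := by
        unfold Ls
        rw [AddSubgroup.closure_le]
        rintro x ⟨hx, _⟩
        exact hx
      exact h2 (hw j hj)
    · by_contra hcon
      apply hi
      rw [Finset.sum_apply]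
      refine Finset.sum_eq_zero fun j hj => ?_
      have h2 : a j i = 0 := by by_contra h; exact hcon (haS j hj i h)
      rw [Pi.smul_apply, h2, smul_zero]
  have h4 : c • v = (∑ j ∈ I, v j • w j) + ∑ j ∈ I, v j • a j := by
    rw [← h1]; abel
  rw [h4]
  exact AddSubgroup.add_mem _ hsum hrest

lemma L_le_Ls {d : ℕ} (g : Fin d → X) (hg : Submodule.span ℤ (Set.range g) = ⊤)
    (χ : Fin n → X) (I : Finset (Fin n)) : L χ I ≤ Ls χ I (1 + d) := by
  intro v hv
  let D : Ideal ℤ := Submodule.comap ((LinearMap.id : ℤ →ₗ[ℤ] ℤ).smulRight v)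
    (AddSubgroup.toIntSubmodule (Ls χ I (1 + d)))
  have hD : ∀ c : ℤ, c ∈ D ↔ c • v ∈ Ls χ I (1 + d) := fun c => Iff.rfl
  have htop : D = ⊤ := by
    by_contra hne
    obtain ⟨M, hM, hle⟩ := Ideal.exists_le_maximal D hne
    obtain ⟨q, hq⟩ := (IsPrincipalIdealRing.principal M).principal
    have hq' : M = Ideal.span {q} := hq
    have hprime : ∃ p : ℕ, p.Prime ∧ (p : ℤ) ∣ q := by
      by_cases h1 : q.natAbs = 1
      · exfalso
        have h2 : IsUnit q := Int.isUnit_iff_natAbs_eq.mpr h1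
        exact hM.ne_top (by rw [hq', Ideal.span_singleton_eq_top]; exact h2)
      · obtain ⟨p, hp, hpd⟩ := Nat.exists_prime_and_dvd h1
        exact ⟨p, hp, Int.natCast_dvd.mpr hpd⟩
    obtain ⟨p, hp, hpq⟩ := hprime
    obtain ⟨c, hc, hcv⟩ := mul_mem_Ls g hg hp χ I
    have h1 : c ∈ M := hle ((hD c).2 (hcv v hv))
    rw [hq', Ideal.mem_span_singleton] at h1
    exact hc (hpq.trans h1)
  have h1 : (1 : ℤ) ∈ D := by rw [htop]; trivial
  rw [hD, one_smul] at h1
  exact h1

/-! ### Positivity -/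

/-- Carathéodory's theorem for cones: if `-∑_{j ∈ J} χ_j` is a nonnegative rational combination of
the `χ_i`, `i ∈ I`, then it is one with at most `rank X` terms. -/
lemma exists_small_neg [Module.Finite ℤ X] (χ : Fin n → X) (I : Finset (Fin n)) (x : X)
    (h : ∃ k : Fin n → ℕ, (∀ i, k i ≠ 0 → i ∈ I) ∧ x + ∑ i, k i • χ i = 0) :
    ∃ (N : ℕ) (k : Fin n → ℕ) (S : Finset (Fin n)), 1 ≤ N ∧ S ⊆ I ∧
      S.card ≤ Module.finrank ℤ X ∧ (∀ i, k i ≠ 0 → i ∈ S) ∧ N • x + ∑ i, k i • χ i = 0 := by
  classical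
  let P : ℕ → Prop := fun s => ∃ (N : ℕ) (k : Fin n → ℕ) (S : Finset (Fin n)), 1 ≤ N ∧ S ⊆ I ∧
      S.card = s ∧ (∀ i, k i ≠ 0 → i ∈ S) ∧ N • x + ∑ i, k i • χ i = 0
  have hP : ∃ s, P s := by
    obtain ⟨k, hk, hx⟩ := h
    exact ⟨I.card, 1, k, I, le_rfl, subset_rfl, rfl, hk, by rw [one_smul]; exact hx⟩
  obtain ⟨N, k, S, hN, hSI, hcard, hk, hx⟩ := Nat.find_spec hP
  refine ⟨N, k, S, hN, hSI, ?_, hk, hx⟩
  by_contra hlt
  push Not at hlt
  have hdep : ¬ LinearIndependent ℤ (fun i : S => χ i) := by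
    intro hli
    have h1 := hli.fintype_card_le_finrank
    rw [Fintype.card_coe] at h1
    omega
  rw [Fintype.not_linearIndependent_iff] at hdep
  -- a relation with a positive coefficient
  have hpos : ∃ a : Fin n → ℤ, (∀ i, a i ≠ 0 → i ∈ S) ∧ ∑ i, a i • χ i = 0 ∧ ∃ i, 0 < a i := by
    obtain ⟨a, ha, i1, hi1⟩ := hdep
    have h0 : ∃ a' : Fin n → ℤ, (∀ i, a' i ≠ 0 → i ∈ S) ∧ ∑ i, a' i • χ i = 0 ∧ ∃ i, a' i ≠ 0 := by
      refine ⟨fun i => if h : i ∈ S then a ⟨i, h⟩ else 0, fun i hi => ?_, ?_, i1, ?_⟩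
      · by_contra h
        exact hi (by simp [h])
      · rw [← Finset.sum_subset (Finset.subset_univ S) (fun i _ hi => by simp [hi]),
          ← Finset.sum_coe_sort, ← ha]
        refine Finset.sum_congr rfl fun i _ => ?_
        simp
      · simpa using hi1
    obtain ⟨a', h1, h2, i, hi⟩ := h0
    rcases lt_or_gt_of_ne hi with h3 | h3
    · refine ⟨-a', fun j hj => h1 j fun h => hj (by rw [Pi.neg_apply, h, neg_zero]), ?_, i, ?_⟩
      · simp only [Pi.neg_apply, neg_smul, Finset.sum_neg_distrib, h2, neg_zero]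
      · rw [Pi.neg_apply]; omega
    · exact ⟨a', h1, h2, i, h3⟩
  obtain ⟨a, haS, hasum, i1, hi1⟩ := hpos
  -- choose the minimal ratio `k_i / a_i`
  obtain ⟨i0, hi0, hmin⟩ := Finset.exists_min_image (Finset.univ.filter fun i => 0 < a i)
    (fun i => (k i : ℚ) / (a i : ℚ)) ⟨i1, by simp [hi1]⟩
  rw [Finset.mem_filter] at hi0
  have hi0' := hi0.2
  have hnonneg : ∀ i, 0 ≤ a i0 * (k i : ℤ) - (k i0 : ℤ) * a i := by
    intro i
    by_cases hai : 0 < a i
    · have h1 := hmin i (by simp [hai])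
      have h2 : (0 : ℚ) < a i := by exact_mod_cast hai
      have h3 : (0 : ℚ) < a i0 := by exact_mod_cast hi0'
      rw [div_le_div_iff₀ h3 h2] at h1
      have h4 : (k i0 : ℤ) * a i ≤ k i * a i0 := by exact_mod_cast h1
      linarith
    · have h1 : (0 : ℤ) ≤ a i0 * (k i : ℤ) := by positivity
      have h2 : (k i0 : ℤ) * a i ≤ 0 := mul_nonpos_of_nonneg_of_nonpos (by positivity) (by omega)
      linarith
  refine Nat.find_min hP (m := (S.erase i0).card) ?_ ⟨(a i0).toNat * N,
    fun i => (a i0 * (k i : ℤ) - (k i0 : ℤ) * a i).toNat, S.erase i0, ?_,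
    (Finset.erase_subset _ _).trans hSI, rfl, fun i hi => ?_, ?_⟩
  · rw [← hcard]
    exact Finset.card_erase_lt_of_mem (haS i0 hi0'.ne')
  · have h1 : 0 < (a i0).toNat := by omega
    exact Nat.mul_pos h1 hN
  · rw [Finset.mem_erase]
    constructor
    · rintro rfl
      apply hi
      change (a i * (k i : ℤ) - (k i : ℤ) * a i).toNat = 0
      rw [mul_comm, sub_self]
      rfl
    · by_contra hcon
      have h1 : a i = 0 := by by_contra h; exact hcon (haS i h)
      have h2 : k i = 0 := by by_contra h; exact hcon (hk i h)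
      exact hi (by simp [h1, h2])
  · have h1 : ∀ i, ((a i0 * (k i : ℤ) - (k i0 : ℤ) * a i).toNat) • χ i =
        (a i0 * (k i : ℤ) - (k i0 : ℤ) * a i) • χ i := by
      intro i
      rw [← natCast_zsmul, Int.toNat_of_nonneg (hnonneg i)]
    have h2 : ((a i0).toNat * N) • x = (a i0 * (N : ℤ)) • x := by
      rw [← natCast_zsmul, Nat.cast_mul, Int.toNat_of_nonneg hi0'.le]
    have h3 : (N : ℤ) • x + ∑ i, (k i : ℤ) • χ i = 0 := by
      simpa only [natCast_zsmul] using hx
    have h4 : ∑ i, (a i0 * (k i : ℤ) - (k i0 : ℤ) * a i) • χ i =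
        a i0 • ∑ i, (k i : ℤ) • χ i - (k i0 : ℤ) • ∑ i, a i • χ i := by
      rw [Finset.smul_sum, Finset.smul_sum, ← Finset.sum_sub_distrib]
      exact Finset.sum_congr rfl fun i _ => by rw [sub_smul, mul_smul, mul_smul]
    rw [h2, Finset.sum_congr rfl fun i _ => h1 i, h4, hasum, smul_zero, sub_zero, mul_smul,
      ← smul_add, h3, smul_zero]

lemma cast_mem_zspan {S : Set (Fin n → ℕ)} {m : Fin n → ℕ} (hm : m ∈ S) :
    (fun i => (m i : ℤ)) ∈ ZSpan S := AddSubgroup.subset_closure ⟨m, hm, rfl⟩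

/-- The sets of the definition of `τ`. -/
def Small (χ : Fin n → X) (I : Finset (Fin n)) (t : ℕ) : Set (Fin n → ℕ) :=
  {m | ∃ J : Finset (Fin n), J ⊆ I ∧ J.card ≤ t ∧ m ∈ BI χ J}

lemma mem_small_of_support [Module.Finite ℤ X] (χ : Fin n → X) (I : Finset (Fin n))
    (b : Fin n → ℕ) (hb : b ∈ BI χ I) (hbI : ∀ i ∈ I, b i ≠ 0) (v : Fin n → ℤ) (hv : v ∈ L χ I)
    (J : Finset (Fin n)) (hJI : J ⊆ I) (hvJ : ∀ i, v i ≠ 0 → i ∈ J) :
    v ∈ ZSpan (Small χ I (J.card + Module.finrank ℤ X)) := by
  classical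
  obtain ⟨N, k, S, hN, hSI, hcard, hkS, hsum⟩ := exists_small_neg χ I (∑ j ∈ J, χ j) (by
    refine ⟨fun i => b i - if i ∈ J then 1 else 0, fun i hi => ?_, ?_⟩
    · exact hb.2 i fun h => hi (by simp [h])
    · have h1 : ∑ j ∈ J, χ j = ∑ i, (if i ∈ J then 1 else 0 : ℕ) • χ i := by
        simp [ite_smul]
      rw [h1, ← Finset.sum_add_distrib]
      have h2 : ∀ i, (if i ∈ J then 1 else 0 : ℕ) • χ i + (b i - if i ∈ J then 1 else 0) • χ i =
          b i • χ i := by
        intro i
        rw [← add_smul]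
        congr 1
        split_ifs with h
        · have := hbI i (hJI h)
          omega
        · omega
      rw [Finset.sum_congr rfl fun i _ => h2 i]
      exact hb.1)
  set M : ℕ := ∑ i, (v i).natAbs with hM
  have hMv : ∀ i, (v i).natAbs ≤ M := fun i =>
    Finset.single_le_sum (f := fun i => (v i).natAbs) (fun i _ => Nat.zero_le _) (Finset.mem_univ i)
  let c : Fin n → ℕ := fun i => M * (N * (if i ∈ J then 1 else 0) + k i)
  have hcsum : ∑ i, c i • χ i = 0 := by
    have h1 : ∑ j ∈ J, χ j = ∑ i, (if i ∈ J then 1 else 0 : ℕ) • χ i := by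
      simp [ite_smul]
    have h2 : ∑ i, c i • χ i = M • (N • ∑ i, (if i ∈ J then 1 else 0 : ℕ) • χ i +
        ∑ i, k i • χ i) := by
      rw [Finset.smul_sum, ← Finset.sum_add_distrib, Finset.smul_sum]
      refine Finset.sum_congr rfl fun i _ => ?_
      simp only [c]
      rw [mul_smul, add_smul, mul_smul]
    rw [h2, ← h1, hsum, smul_zero]
  have hcJ : ∀ i, c i ≠ 0 → i ∈ J ∪ S := by
    intro i hi
    rw [Finset.mem_union]
    by_contra hcon
    rw [not_or] at hcon
    have h2 : k i = 0 := by by_contra h; exact hcon.2 (hkS i h)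
    exact hi (by simp [c, hcon.1, h2])
  have hcard' : (J ∪ S).card ≤ J.card + Module.finrank ℤ X :=
    (Finset.card_union_le _ _).trans (by omega)
  have hcmem : c ∈ Small χ I (J.card + Module.finrank ℤ X) :=
    ⟨J ∪ S, Finset.union_subset hJI hSI, hcard', hcsum, hcJ⟩
  have hnn : ∀ i, 0 ≤ v i + (c i : ℤ) := by
    intro i
    by_cases hi : i ∈ J
    · have h1 : M ≤ c i := by
        simp only [c, hi, if_true, mul_one]
        calc M = M * 1 := (mul_one M).symm
          _ ≤ M * (N + k i) := Nat.mul_le_mul_left M (by omega)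
      have h2 := hMv i
      omega
    · have h1 : v i = 0 := by by_contra h; exact hi (hvJ i h)
      rw [h1]
      positivity
  let e : Fin n → ℕ := fun i => (v i + (c i : ℤ)).toNat
  have he : ∀ i, (e i : ℤ) = v i + (c i : ℤ) := fun i => Int.toNat_of_nonneg (hnn i)
  have hemem : e ∈ Small χ I (J.card + Module.finrank ℤ X) := by
    refine ⟨J ∪ S, Finset.union_subset hJI hSI, hcard', ?_, ?_⟩
    · change ∑ i, e i • χ i = 0
      have h1 : ∑ i, e i • χ i = ∑ i, v i • χ i + ∑ i, c i • χ i := by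
        rw [← Finset.sum_add_distrib]
        refine Finset.sum_congr rfl fun i _ => ?_
        rw [← natCast_zsmul, he, add_smul, natCast_zsmul]
      rw [h1, hv.2, hcsum, add_zero]
    · intro i hi
      by_contra hcon
      have h1 : v i = 0 := by
        by_contra h
        exact hcon (Finset.mem_union_left _ (hvJ i h))
      have h2 : c i = 0 := by by_contra h; exact hcon (hcJ i h)
      apply hi
      have := he i
      rw [h1, h2] at this
      simpa using this
  have hv' : v = (fun i => (e i : ℤ)) - fun i => (c i : ℤ) := by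
    funext i
    rw [Pi.sub_apply, he]
    ring
  rw [hv']
  exact AddSubgroup.sub_mem _ (cast_mem_zspan hemem) (cast_mem_zspan hcmem)

lemma small_mono (χ : Fin n → X) {I I' : Finset (Fin n)} (hI : I' ⊆ I) {s t : ℕ} (h : s ≤ t) :
    ZSpan (Small χ I' s) ≤ ZSpan (Small χ I t) := by
  apply AddSubgroup.closure_mono
  apply Set.image_mono
  rintro m ⟨J, hJ, hc, hm⟩
  exact ⟨J, hJ.trans hI, hc.trans h, hm⟩

/-- The bound for a finitely generated abelian group generated by `d` elements. -/
lemma main_bound [Module.Finite ℤ X] {d : ℕ} (g : Fin d → X)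
    (hg : Submodule.span ℤ (Set.range g) = ⊤) (χ : Fin n → X) (I : Finset (Fin n)) :
    ZSpan (BI χ I) = ZSpan (Small χ I (1 + Module.finrank ℤ X + d)) := by
  classical
  apply le_antisymm
  · -- the union of the supports
    set I' : Finset (Fin n) := I.filter fun i => ∃ m ∈ BI χ I, m i ≠ 0 with hI'
    have hb : ∃ b ∈ BI χ I', ∀ i ∈ I', b i ≠ 0 := by
      have h1 : ∀ i : Fin n, ∃ m : Fin n → ℕ, m ∈ BI χ I ∧ (i ∈ I' → m i ≠ 0) := by
        intro i
        by_cases hi : i ∈ I'
        · rw [hI', Finset.mem_filter] at hi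
          obtain ⟨m, hm, hmi⟩ := hi.2
          exact ⟨m, hm, fun _ => hmi⟩
        · exact ⟨0, ⟨by simp [B], by simp⟩, fun h => absurd h hi⟩
      choose m hm hmi using h1
      refine ⟨fun j => ∑ i, m i j, ⟨?_, ?_⟩, ?_⟩
      · change ∑ j, (∑ i, m i j) • χ j = 0
        have h2 : ∑ j, (∑ i, m i j) • χ j = ∑ i, ∑ j, m i j • χ j := by
          rw [Finset.sum_comm]
          exact Finset.sum_congr rfl fun j _ => Finset.sum_smul
        rw [h2]
        exact Finset.sum_eq_zero fun i _ => (hm i).1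
      · intro j hj
        obtain ⟨i, _, hi⟩ := Finset.exists_ne_zero_of_sum_ne_zero hj
        rw [hI', Finset.mem_filter]
        exact ⟨(hm i).2 j hi, m i, hm i, hi⟩
      · intro j hj h
        rw [Finset.sum_eq_zero_iff] at h
        exact hmi j hj (h j (Finset.mem_univ _))
    obtain ⟨b, hb, hbI⟩ := hb
    have hI'I : I' ⊆ I := Finset.filter_subset _ _
    have h1 : L χ I' ≤ ZSpan (Small χ I' (1 + Module.finrank ℤ X + d)) := by
      refine (L_le_Ls g hg χ I').trans ?_
      unfold Ls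
      rw [AddSubgroup.closure_le]
      rintro v ⟨hv, J, hJ, hJc, hvJ⟩
      exact small_mono χ subset_rfl (by omega)
        (mem_small_of_support χ I' b hb hbI v hv J hJ hvJ)
    refine le_trans ?_ (h1.trans (small_mono χ hI'I le_rfl))
    unfold ZSpan
    rw [AddSubgroup.closure_le]
    rintro _ ⟨m, hm, rfl⟩
    refine ⟨fun i hi => ?_, ?_⟩
    · have h2 : m i ≠ 0 := by
        intro h
        exact hi (by simp [h])
      rw [hI', Finset.mem_filter]
      exact ⟨hm.2 i h2, m, hm, h2⟩
    · have h2 : ∑ i, m i • χ i = 0 := hm.1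
      simpa only [natCast_zsmul] using h2
  · apply AddSubgroup.closure_mono
    apply Set.image_mono
    rintro m ⟨J, hJ, _, hm⟩
    exact ⟨hm.1, fun i hi => hJ (hm.2 i hi)⟩

/-- The bound for an arbitrary finitely generated abelian group `X`. -/
theorem tau_le [Module.Finite ℤ X] (χ : Fin n → X) :
    tau χ ≤ 1 + Module.finrank ℤ X + rk X := by
  have hne : {k | ∃ g : Fin k → X, AddSubgroup.closure (Set.range g) = ⊤}.Nonempty := by
    obtain ⟨k, g, hg⟩ := Module.Finite.exists_fin (R := ℤ) (M := X)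
    refine ⟨k, g, ?_⟩
    rw [← Submodule.span_int_eq_addSubgroupClosure, hg]
    rfl
  obtain ⟨g, hg⟩ := Nat.sInf_mem hne
  have hg' : Submodule.span ℤ (Set.range g) = ⊤ := by
    rw [← Submodule.toAddSubgroup_inj, Submodule.span_int_eq_addSubgroupClosure, hg]
    rfl
  exact Nat.sInf_le fun I => main_bound g hg' χ I

end Lattice

section Diag

/-- The torus `(K^×)^r`. -/
def Torus (K : Type u) [Field K] (r : ℕ) : Type u := Fin r → Kˣ

instance (K : Type u) [Field K] (r : ℕ) : Group (Torus K r) := Pi.group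

variable {K : Type u} [Field K] {r : ℕ}

/-- `G` is a Zariski closed subset of the torus `(K^×)^r` (the zero set of a set of polynomials). -/
def ZariskiClosed (G : Subgroup (Torus K r)) : Prop :=
  ∃ P : Set (MvPolynomial (Fin r) K), ∀ t : Torus K r,
    t ∈ G ↔ ∀ p ∈ P, MvPolynomial.eval (fun i => (t i : K)) p = 0

/-- The point `(t, t⁻¹)` of `K^(2r)` given by a point `t` of the torus. -/
def pt (t : Torus K r) : Fin r ⊕ Fin r → K :=
  Sum.elim (fun i => (t i : K)) (fun i => ((t i)⁻¹ : Kˣ))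

/-- The group of all homomorphisms from `G` to `K^×`. -/
def AllChar (G : Subgroup (Torus K r)) : Type u := G →* Kˣ

instance (G : Subgroup (Torus K r)) : CommGroup (AllChar G) := MonoidHom.instCommGroup

/-- The value of a homomorphism `G → K^×` at a point of `G`, in `K`. -/
def AllChar.val {G : Subgroup (Torus K r)} (χ : AllChar G) (t : G) : K := (χ.toFun t : K)

/-- A homomorphism `G → K^×` is regular if it is given by a Laurent polynomial in the coordinates
of the torus. -/
def IsRegular {G : Subgroup (Torus K r)} (χ : AllChar G) : Prop :=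
  ∃ p : MvPolynomial (Fin r ⊕ Fin r) K, ∀ t : G, χ.val t = MvPolynomial.eval (pt t.1) p

lemma isRegular_mul {G : Subgroup (Torus K r)} {χ ψ : AllChar G}
    (hχ : IsRegular χ) (hψ : IsRegular ψ) : IsRegular (χ * ψ) := by
  obtain ⟨p, hp⟩ := hχ
  obtain ⟨q, hq⟩ := hψ
  refine ⟨p * q, fun t => ?_⟩
  rw [map_mul, ← hp t, ← hq t]
  rfl

lemma isRegular_one (G : Subgroup (Torus K r)) : IsRegular (1 : AllChar G) :=
  ⟨1, fun t => by rw [map_one]; rfl⟩

lemma isRegular_inv {G : Subgroup (Torus K r)} {χ : AllChar G} (hχ : IsRegular χ) :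
    IsRegular χ⁻¹ := by
  obtain ⟨p, hp⟩ := hχ
  refine ⟨MvPolynomial.rename Sum.swap p, fun t => ?_⟩
  have h1 : (χ⁻¹ : AllChar G).val t = χ.val t⁻¹ := by
    unfold AllChar.val
    congr 1
    exact (map_inv (show G →* Kˣ from χ) t).symm
  have h2 : pt t.1 ∘ Sum.swap = pt (t⁻¹ : G).1 := by
    funext i
    rcases i with i | i
    · rfl
    · change ((t.1 i : Kˣ) : K) = (((t.1 i)⁻¹⁻¹ : Kˣ) : K)
      rw [inv_inv]
  rw [MvPolynomial.eval_rename, h2, ← hp t⁻¹]
  exact h1

/-- The (multiplicative) group of characters of the algebraic group `G`: all homomorphisms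
`G → K^×` which are regular functions. -/
def AlgChar (G : Subgroup (Torus K r)) : Subgroup (AllChar G) where
  carrier := {χ | IsRegular χ}
  mul_mem' := isRegular_mul
  one_mem' := isRegular_one G
  inv_mem' := isRegular_inv

/-- The character group `X(G)`, written additively. -/
def CharGroup (G : Subgroup (Torus K r)) : Type u := Additive (AlgChar G)

instance (G : Subgroup (Torus K r)) : AddCommGroup (CharGroup G) := Additive.addCommGroup

/-- The dimension of the diagonalizable group `G`: the rank of its character group `X(G)`. -/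
noncomputable def dimG (G : Subgroup (Torus K r)) : ℕ := Module.finrank ℤ (CharGroup G)

/-- The coordinate characters. -/
def coord (G : Subgroup (Torus K r)) (i : Fin r) : AlgChar G :=
  ⟨((Pi.evalMonoidHom (fun _ : Fin r => Kˣ) i).comp G.subtype : G →* Kˣ),
    MvPolynomial.X (Sum.inl i), fun t => by rw [MvPolynomial.eval_X]; rfl⟩

/-- The monomial `∏ coord_i ^ e_i`. -/
def mono (G : Subgroup (Torus K r)) (e : Fin r → ℤ) : AlgChar G := ∏ i, coord G i ^ e i

/-- The evaluation at a point of `G`, as a homomorphism. -/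
def evalHom (G : Subgroup (Torus K r)) (t : G) : AllChar G →* Kˣ where
  toFun χ := (show G →* Kˣ from χ) t
  map_one' := rfl
  map_mul' _ _ := rfl

lemma mono_apply (G : Subgroup (Torus K r)) (e : Fin r → ℤ) (t : G) :
    evalHom G t (mono G e).1 = ∏ i, (t.1 i) ^ e i := by
  unfold mono
  rw [Subgroup.val_finsetProd, map_prod]
  refine Finset.prod_congr rfl fun i _ => ?_
  rw [Subgroup.coe_zpow, map_zpow]
  rfl

/-- Every character is a monomial in the coordinate characters. -/
lemma exists_monomial (G : Subgroup (Torus K r)) (χ : AlgChar G) :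
    ∃ e : Fin r → ℤ, χ = mono G e := by
  classical
  obtain ⟨p, hp⟩ := χ.2
  -- the monomials as characters
  let ex : (Fin r ⊕ Fin r →₀ ℕ) → Fin r → ℤ := fun m i => (m (Sum.inl i) : ℤ) - m (Sum.inr i)
  let toK : AllChar G → (G →* K) := fun ψ => (Units.coeHom K).comp (show G →* Kˣ from ψ)
  have htoK : ∀ ψ ψ' : AllChar G, toK ψ = toK ψ' → ψ = ψ' := by
    intro ψ ψ' h
    refine MonoidHom.ext (M := G) (N := Kˣ) fun t => Units.ext ?_
    exact DFunLike.congr_fun h t
  let mo : (Fin r ⊕ Fin r →₀ ℕ) → (G →* K) := fun m => toK (mono G (ex m)).1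
  have hmo : ∀ (m : Fin r ⊕ Fin r →₀ ℕ) (t : G), mo m t = ∏ i, pt t.1 i ^ m i := by
    intro m t
    have h1 : mo m t = ((evalHom G t (mono G (ex m)).1 : Kˣ) : K) := rfl
    rw [h1, mono_apply, Fintype.prod_sum_type]
    simp only [pt, Sum.elim_inl, Sum.elim_inr]
    rw [← Finset.prod_mul_distrib, Units.coe_prod]
    refine Finset.prod_congr rfl fun i _ => ?_
    rw [show ex m i = (m (Sum.inl i) : ℤ) - m (Sum.inr i) from rfl, zpow_sub, zpow_natCast,
      zpow_natCast, ← inv_pow]
    push_cast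
    rfl
  have hχ : (toK χ.1 : G → K) = ∑ m ∈ p.support, p.coeff m • (mo m : G → K) := by
    funext t
    have h0 : toK χ.1 t = MvPolynomial.eval (pt t.1) p := hp t
    rw [h0, MvPolynomial.eval_eq, Finset.sum_apply]
    refine Finset.sum_congr rfl fun m _ => ?_
    rw [Pi.smul_apply, smul_eq_mul, hmo]
    congr 1
    exact Finset.prod_subset (Finset.subset_univ _) fun i _ hi => by
      rw [Finsupp.notMem_support_iff.mp hi, pow_zero]
  by_contra hcon
  push Not at hcon
  have hli := linearIndependent_monoidHom G K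
  have hnot : toK χ.1 ∉ Set.range mo := by
    rintro ⟨m, hm⟩
    exact hcon (ex m) (Subtype.ext (htoK _ _ hm.symm))
  refine hli.notMem_span_image hnot ?_
  rw [hχ]
  refine Submodule.sum_mem _ fun m _ => Submodule.smul_mem _ _ (Submodule.subset_span ?_)
  exact ⟨mo m, ⟨m, rfl⟩, rfl⟩

instance (G : Subgroup (Torus K r)) : Module.Finite ℤ (CharGroup G) := by
  classical
  let c : Fin r → CharGroup G := fun i => Additive.ofMul (coord G i)
  refine ⟨⟨Finset.univ.image c, ?_⟩⟩
  rw [eq_top_iff]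
  intro x _
  obtain ⟨e, he⟩ := exists_monomial G (show Additive (AlgChar G) from x).toMul
  have h1 : x = ∑ i, e i • c i := by
    have h2 : (Additive.toMul (∑ i, e i • (Additive.ofMul (coord G i))) : AlgChar G) = mono G e := by
      rw [toMul_sum]
      rfl
    apply (Additive.toMul (α := AlgChar G)).injective
    exact he.trans h2.symm
  rw [h1]
  refine Submodule.sum_mem _ fun i _ => Submodule.smul_mem _ _ (Submodule.subset_span ?_)
  simp

end Diag

/-- **Full positive answer to Q1**: for every algebraically closed field `K`, every diagonalizable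
group `G` (a Zariski closed subgroup of a torus `(K^×)^r`) and all characters
`χ₁, …, χ_n ∈ X(G)` one has `τ(B(χ₁, …, χ_n)) ≤ 1 + dim G + rk X(G)`. -/
theorem result (K : Type u) [Field K] [IsAlgClosed K] (r : ℕ) (G : Subgroup (Torus K r))
    (_hG : ZariskiClosed G) (n : ℕ) (χ : Fin n → CharGroup G) :
    tau χ ≤ 1 + dimG G + rk (CharGroup G) :=
  tau_le χ

end Pool.Agent.Results.MP_7bc96b_al.SupportBound
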